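import Pool.Agent.EFree.Proof

/-!
# A countable elementary free group that is not a union of a chain of finitely generated
elementary free subgroups

The definitions are in `Pool/Agent/EFree/Defs.lean`, the proof is in `Pool/Agent/EFree/Proof.lean`.
-/

namespace Pool.Agent.Results.MP_7bc825_lc.NotUnionOfChain

open Pool.Agent.EFree

/-- **There is a countable elementary free group which is not the union of any chain of finitely
generated subgroups that are elementary free groups.** -/
theorem result : ∃ (G : Type) (_ : Group G), Countable G ∧ IsElementaryFree G ∧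
    ¬ ∃ C : Set (Subgroup G), IsChain (· ≤ ·) C ∧ (∀ H ∈ C, H.FG ∧ IsElementaryFree H) ∧
      (∀ g : G, ∃ H ∈ C, g ∈ H) := by
  obtain ⟨G, hG, h1, h2, a, b, _, h3⟩ := exists_pair
  refine ⟨G, hG, h1, h2, ?_⟩
  rintro ⟨C, hC1, hC2, hC3⟩
  obtain ⟨H1, hH1, ha⟩ := hC3 a
  obtain ⟨H2, hH2, hb⟩ := hC3 b
  rcases hC1.total hH1 hH2 with h | h
  · exact h3 H2 (hC2 H2 hH2).1 (hC2 H2 hH2).2 ⟨h ha, hb⟩
  · exact h3 H1 (hC2 H1 hH1).1 (hC2 H1 hH1).2 ⟨ha, h hb⟩

end Pool.Agent.Results.MP_7bc825_lc.NotUnionOfChain
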